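import Mathlib
import Pool.Agent.H4ES.Defs
import Pool.Agent.H23ES.Schlaefli

set_option autoImplicit false

/-!
Dihedral angles of a tetrahedron in terms of its vertices; the subdivision by the barycentre.
-/

namespace Pool.Agent.H93FL

open Real InnerProductGeometry Pool.Agent.H4ES Pool.Agent.H23ES

/-- Euclidean space of dimension three -/
abbrev E3 : Type := EuclideanSpace ℝ (Fin 3)

/-- the projection along `a`, times `|a|²` -/
noncomputable def prj (a x : E3) : E3 := (inner ℝ a a : ℝ) • x - (inner ℝ a x : ℝ) • a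

theorem prj_add (a x y : E3) : prj a (x + y) = prj a x + prj a y := by
  unfold prj
  rw [inner_add_right, smul_add, add_smul]
  abel

theorem prj_smul (a x : E3) (r : ℝ) : prj a (r • x) = r • prj a x := by
  unfold prj
  rw [inner_smul_right]
  module

theorem prj_self (a : E3) : prj a a = 0 := by
  unfold prj
  rw [sub_self]

theorem inner_prj (a x y : E3) : (inner ℝ (prj a x) (prj a y) : ℝ) =
    inner ℝ a a * (inner ℝ a a * inner ℝ x y - inner ℝ a x * inner ℝ a y) := by
  unfold prj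
  simp only [inner_sub_left, inner_sub_right, inner_smul_left, inner_smul_right,
    real_inner_comm a x, conj_trivial]
  ring

/-- the dihedral angle at the edge `A B` of the tetrahedron `A B C D` -/
noncomputable def dih (A B C D : E3) : ℝ := angle (prj (B - A) (C - A)) (prj (B - A) (D - A))

theorem dih_comm (A B C D : E3) : dih A B C D = dih A B D C := angle_comm _ _

theorem prj_swap (A B C : E3) : prj (A - B) (C - B) = prj (B - A) (C - A) := by
  have h1 : A - B = -(B - A) := by abel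
  have h2 : C - B = (C - A) - (B - A) := by abel
  rw [h1, h2]
  generalize B - A = a
  generalize C - A = x
  unfold prj
  simp only [inner_neg_left, inner_neg_right, inner_sub_right, neg_neg]
  module

theorem dih_swap (A B C D : E3) : dih A B C D = dih B A C D := by
  unfold dih
  rw [prj_swap A B C, prj_swap A B D]

/-- three vectors with sum zero -/
theorem angle_sum3 {X Y Z : E3} (hY : Y ≠ 0) (h : X + Y + Z = 0) :
    angle X Y + angle Y Z + angle Z X = 2 * π := by
  have hZ : Z = -(X + Y) := by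
    rw [eq_neg_iff_add_eq_zero, ← h]
    abel
  have h1 := angle_add_angle_sub_add_angle_sub_eq_pi X (neg_ne_zero.2 hY)
  rw [sub_neg_eq_add, angle_neg_right] at h1
  have e2 : -Y - X = -(X + Y) := by abel
  rw [e2, ← hZ] at h1
  have e3 : angle X (X + Y) = π - angle Z X := by
    rw [hZ, angle_neg_left, angle_comm (X + Y) X]
    ring
  rw [e3, angle_neg_left] at h1
  linarith

/-- the angle is additive -/
theorem angle_sum2 {X Y : E3} (hY : Y ≠ 0) :
    angle X (X + Y) + angle (X + Y) Y = angle X Y := by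
  have h1 := angle_add_angle_sub_add_angle_sub_eq_pi X (neg_ne_zero.2 hY)
  rw [sub_neg_eq_add, angle_neg_right] at h1
  have e2 : -Y - X = -(X + Y) := by abel
  rw [e2, angle_neg_neg, angle_comm Y] at h1
  linarith

theorem bary2 {A B C D : E3} (h2 : prj (B - A) (D - A) ≠ 0) :
    dih A B C ((1 / 4 : ℝ) • (A + B + C + D)) + dih A B ((1 / 4 : ℝ) • (A + B + C + D)) D =
      dih A B C D := by
  have e : (1 / 4 : ℝ) • (A + B + C + D) - A =
      (1 / 4 : ℝ) • ((B - A) + (C - A) + (D - A)) := by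
    module
  unfold dih
  rw [e, prj_smul, prj_add, prj_add, prj_self, zero_add,
    angle_smul_right_of_pos _ _ (by norm_num), angle_smul_left_of_pos _ _ (by norm_num)]
  exact angle_sum2 h2

theorem bary3 {P B C D F : E3} (h : B + C + D + F = (4 : ℝ) • P)
    (h2 : prj (B - P) (D - P) ≠ 0) :
    dih P B C D + dih P B D F + dih P B F C = 2 * π := by
  unfold dih
  refine angle_sum3 h2 ?_
  rw [← prj_add, ← prj_add]
  have e : C - P + (D - P) + (F - P) = (-1 : ℝ) • (B - P) := by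
    have : C + D + F = (4 : ℝ) • P - B := by
      rw [← h]
      abel
    calc C - P + (D - P) + (F - P) = (C + D + F) - (3 : ℝ) • P := by module
      _ = _ := by
        rw [this]
        module
  rw [e, prj_smul, prj_self, smul_zero]

theorem dsq (x y : E3) : Dist.dist x y ^ 2 = (inner ℝ (x - y) (x - y) : ℝ) := by
  rw [dist_eq_norm, real_inner_self_eq_norm_sq]

/-- the squared distances in terms of the edge vectors from `A` -/
theorem dsq' (A x y : E3) : Dist.dist x y ^ 2 = (inner ℝ (x - A) (x - A) : ℝ)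
    - 2 * inner ℝ (x - A) (y - A) + inner ℝ (y - A) (y - A) := by
  have h : x - y = (x - A) - (y - A) := by abel
  rw [dsq, h]
  generalize x - A = u
  generalize y - A = v
  simp only [inner_sub_left, inner_sub_right]
  rw [real_inner_comm u v]
  ring

theorem nu_eq {q : Fin 4 → Fin 4 → ℝ} {p : Fin 4 → E3}
    (hq : ∀ b c, b ≠ c → Dist.dist (p b) (p c) ^ 2 = q b c) {i j k l : Fin 4}
    (hij : i ≠ j) (hik : i ≠ k) (hil : i ≠ l) (hjk : j ≠ k) (hjl : j ≠ l) (hkl : k ≠ l) :
    nu q i j k l = 4 * (inner ℝ (p j - p i) (p j - p i) * inner ℝ (p k - p i) (p l - p i)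
      - inner ℝ (p j - p i) (p k - p i) * inner ℝ (p j - p i) (p l - p i)) := by
  unfold nu
  rw [← hq i j hij, ← hq i k hik, ← hq i l hil, ← hq j k hjk, ← hq j l hjl, ← hq k l hkl,
    dsq' (p i) (p i) (p j), dsq' (p i) (p i) (p k), dsq' (p i) (p i) (p l),
    dsq' (p i) (p j) (p k), dsq' (p i) (p j) (p l), dsq' (p i) (p k) (p l)]
  simp only [sub_self, inner_zero_left]
  ring

theorem ar_eq {q : Fin 4 → Fin 4 → ℝ} {p : Fin 4 → E3}
    (hq : ∀ b c, b ≠ c → Dist.dist (p b) (p c) ^ 2 = q b c) {i j k : Fin 4}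
    (hij : i ≠ j) (hik : i ≠ k) (hjk : j ≠ k) :
    ar q i j k = 4 * (inner ℝ (p j - p i) (p j - p i) * inner ℝ (p k - p i) (p k - p i)
      - inner ℝ (p j - p i) (p k - p i) * inner ℝ (p j - p i) (p k - p i)) := by
  unfold ar
  rw [← hq i j hij, ← hq i k hik, ← hq j k hjk,
    dsq' (p i) (p i) (p j), dsq' (p i) (p i) (p k), dsq' (p i) (p j) (p k)]
  simp only [sub_self, inner_zero_left]
  ring

/-- weights -/
theorem wts {p : Fin 4 → E3} (hp : AffineIndependent ℝ p) (w : Fin 4 → ℝ)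
    (h0 : ∑ c, w c = 0) (h : ∑ c, w c • p c = 0) : ∀ c, w c = 0 := by
  rw [affineIndependent_iff_of_fintype] at hp
  refine hp w h0 ?_
  rw [Finset.weightedVSub_eq_linear_combination _ h0]
  exact h

theorem indep2 {p : Fin 4 → E3} (hp : AffineIndependent ℝ p) {i j k : Fin 4}
    (hij : i ≠ j) (hik : i ≠ k) (hjk : j ≠ k) {α β : ℝ}
    (h : α • (p j - p i) + β • (p k - p i) = 0) : α = 0 ∧ β = 0 := by
  have h1 := wts hp (fun c => (if c = j then α else 0) + (if c = k then β else 0)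
      - (if c = i then α + β else 0)) (by
      simp [Finset.sum_add_distrib, Finset.sum_sub_distrib]) (by
      simp only [sub_smul, add_smul, ite_smul, zero_smul, Finset.sum_add_distrib,
        Finset.sum_sub_distrib, Finset.sum_ite_eq', Finset.mem_univ, if_true]
      rw [← h]
      module)
  have h2 := h1 j
  have h3 := h1 k
  simp [hij.symm, hik.symm, hjk, hjk.symm] at h2 h3
  exact ⟨h2, h3⟩

theorem indep3 {p : Fin 4 → E3} (hp : AffineIndependent ℝ p) {α β γ : ℝ}
    (h : α • (p 1 - p 0) + β • (p 2 - p 0) + γ • (p 3 - p 0) = 0) : γ = 0 := by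
  have h1 := wts hp ![-(α + β + γ), α, β, γ] (by simp [Fin.sum_univ_four]; ring) (by
      simp only [Fin.sum_univ_four, Matrix.cons_val]
      rw [← h]
      module)
  exact h1 3

theorem prj_ne {a x : E3} (ha : a ≠ 0) (h : ∀ α β : ℝ, α • a + β • x = 0 → β = 0) :
    prj a x ≠ 0 := by
  intro h0
  have h1 := h (-(inner ℝ a x : ℝ)) (inner ℝ a a : ℝ) (by
    rw [← h0]
    unfold prj
    module)
  exact ha (inner_self_eq_zero.1 h1)

theorem pt_ne {p : Fin 4 → E3} (hp : AffineIndependent ℝ p) {i j : Fin 4} (hij : i ≠ j) :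
    p j - p i ≠ 0 := sub_ne_zero.2 fun h => hij (hp.injective h.symm)

theorem prj_pt {p : Fin 4 → E3} (hp : AffineIndependent ℝ p) {i j k : Fin 4}
    (hij : i ≠ j) (hik : i ≠ k) (hjk : j ≠ k) : prj (p j - p i) (p k - p i) ≠ 0 :=
  prj_ne (pt_ne hp hij) fun _ _ h => (indep2 hp hij hik hjk h).2

theorem in_pos {a : E3} (ha : a ≠ 0) : 0 < (inner ℝ a a : ℝ) := by
  rw [real_inner_self_eq_norm_sq]
  have := norm_pos_iff.2 ha
  positivity

theorem ar_pos {q : Fin 4 → Fin 4 → ℝ} {p : Fin 4 → E3} (hp : AffineIndependent ℝ p)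
    (hq : ∀ b c, b ≠ c → Dist.dist (p b) (p c) ^ 2 = q b c) {i j k : Fin 4}
    (hij : i ≠ j) (hik : i ≠ k) (hjk : j ≠ k) : 0 < ar q i j k := by
  rw [ar_eq hq hij hik hjk]
  have h1 := in_pos (prj_pt hp hij hik hjk)
  rw [inner_prj] at h1
  have h2 := in_pos (pt_ne hp hij)
  have h3 := (mul_pos_iff_of_pos_left h2).1 h1
  linarith

theorem q_pos {q : Fin 4 → Fin 4 → ℝ} {p : Fin 4 → E3} (hp : AffineIndependent ℝ p)
    (hq : ∀ b c, b ≠ c → Dist.dist (p b) (p c) ^ 2 = q b c) {i j : Fin 4}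
    (hij : i ≠ j) : 0 < q i j := by
  rw [← hq i j hij, dsq]
  exact in_pos (pt_ne hp hij.symm)

theorem gr_pos {q : Fin 4 → Fin 4 → ℝ} {p : Fin 4 → E3} (hp : AffineIndependent ℝ p)
    (hq : ∀ b c, b ≠ c → Dist.dist (p b) (p c) ^ 2 = q b c) : 0 < gr q := by
  have ha : p 1 - p 0 ≠ 0 := pt_ne hp (by decide)
  have hX : prj (p 1 - p 0) (p 2 - p 0) ≠ 0 := prj_pt hp (by decide) (by decide) (by decide)
  have hW : prj (prj (p 1 - p 0) (p 2 - p 0)) (prj (p 1 - p 0) (p 3 - p 0)) ≠ 0 := by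
    refine prj_ne hX fun α β h => ?_
    have h1 : (β * inner ℝ (p 1 - p 0) (p 1 - p 0) : ℝ) = 0 := by
      refine indep3 hp (α := -(α * inner ℝ (p 1 - p 0) (p 2 - p 0)
        + β * inner ℝ (p 1 - p 0) (p 3 - p 0)))
        (β := α * inner ℝ (p 1 - p 0) (p 1 - p 0)) ?_
      rw [← h]
      unfold prj
      module
    exact (mul_eq_zero.1 h1).resolve_right (in_pos ha).ne'
  have h1 := in_pos hW
  rw [inner_prj, inner_prj, inner_prj, inner_prj] at h1
  have h2 := in_pos ha
  have h3 := in_pos hX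
  rw [inner_prj] at h3
  have h4 := (mul_pos_iff_of_pos_left h3).1 h1
  have e : gr q = 16 * (inner ℝ (p 1 - p 0) (p 1 - p 0) * (inner ℝ (p 2 - p 0) (p 2 - p 0) *
      inner ℝ (p 3 - p 0) (p 3 - p 0) - inner ℝ (p 2 - p 0) (p 3 - p 0) ^ 2)
      - inner ℝ (p 1 - p 0) (p 2 - p 0) * (inner ℝ (p 1 - p 0) (p 2 - p 0) *
        inner ℝ (p 3 - p 0) (p 3 - p 0) - inner ℝ (p 2 - p 0) (p 3 - p 0) *
        inner ℝ (p 1 - p 0) (p 3 - p 0))
      + inner ℝ (p 1 - p 0) (p 3 - p 0) * (inner ℝ (p 1 - p 0) (p 2 - p 0) *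
        inner ℝ (p 2 - p 0) (p 3 - p 0) - inner ℝ (p 2 - p 0) (p 2 - p 0) *
        inner ℝ (p 1 - p 0) (p 3 - p 0))) := by
    unfold gr
    rw [← hq 0 1 (by decide), ← hq 0 2 (by decide), ← hq 0 3 (by decide), ← hq 1 2 (by decide),
      ← hq 1 3 (by decide), ← hq 2 3 (by decide),
      dsq' (p 0) (p 0) (p 1), dsq' (p 0) (p 0) (p 2), dsq' (p 0) (p 0) (p 3),
      dsq' (p 0) (p 1) (p 2), dsq' (p 0) (p 1) (p 3), dsq' (p 0) (p 2) (p 3)]
    simp only [sub_self, inner_zero_left]
    ring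
  rw [e]
  generalize hA : (inner ℝ (p 1 - p 0) (p 1 - p 0) : ℝ) = A at *
  generalize hB : (inner ℝ (p 2 - p 0) (p 2 - p 0) : ℝ) = B at *
  generalize hC : (inner ℝ (p 3 - p 0) (p 3 - p 0) : ℝ) = C at *
  generalize hD : (inner ℝ (p 1 - p 0) (p 2 - p 0) : ℝ) = D at *
  generalize hF : (inner ℝ (p 1 - p 0) (p 3 - p 0) : ℝ) = F at *
  generalize hG : (inner ℝ (p 2 - p 0) (p 3 - p 0) : ℝ) = G at *
  have h5 : 0 < A ^ 3 * (A * (B * C - G ^ 2) - D * (D * C - G * F) + F * (D * G - B * F)) := by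
    have : A ^ 3 * (A * (B * C - G ^ 2) - D * (D * C - G * F) + F * (D * G - B * F)) =
        A * (A * B - D * D) * (A * (A * C - F * F)) - A * (A * G - D * F) * (A * (A * G - D * F))
        := by ring
    rw [this]
    exact h4
  have h6 := (mul_pos_iff_of_pos_left (by positivity : 0 < A ^ 3)).1 h5
  linarith

/-- the formula for the dihedral angle is correct -/
theorem th_eq_dih {q : Fin 4 → Fin 4 → ℝ} {p : Fin 4 → E3} (hp : AffineIndependent ℝ p)
    (hq : ∀ b c, b ≠ c → Dist.dist (p b) (p c) ^ 2 = q b c) (m : Fin 6) :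
    th q m = dih (p (ei m)) (p (ej m)) (p (ek m)) (p (el m)) := by
  have hne : ei m ≠ ej m ∧ ei m ≠ ek m ∧ ei m ≠ el m ∧ ej m ≠ ek m ∧ ej m ≠ el m ∧
      ek m ≠ el m := by
    fin_cases m <;> simp [ei, ej, ek, el]
  obtain ⟨h1, h2, h3, h4, h5, h6⟩ := hne
  have ha := in_pos (pt_ne hp h1)
  have hk := in_pos (prj_pt hp h1 h2 h4)
  have hl := in_pos (prj_pt hp h1 h3 h5)
  unfold th dih angle
  congr 1
  rw [nu_eq hq h1 h2 h3 h4 h5 h6, ar_eq hq h1 h2 h4, ar_eq hq h1 h3 h5]
  have n1 : ‖prj (p (ej m) - p (ei m)) (p (ek m) - p (ei m))‖ *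
      ‖prj (p (ej m) - p (ei m)) (p (el m) - p (ei m))‖ =
      √((inner ℝ (prj (p (ej m) - p (ei m)) (p (ek m) - p (ei m)))
        (prj (p (ej m) - p (ei m)) (p (ek m) - p (ei m))) : ℝ) *
        (inner ℝ (prj (p (ej m) - p (ei m)) (p (el m) - p (ei m)))
        (prj (p (ej m) - p (ei m)) (p (el m) - p (ei m))) : ℝ)) := by
    rw [real_inner_self_eq_norm_sq, real_inner_self_eq_norm_sq, ← mul_pow,
      Real.sqrt_sq (by positivity)]
  rw [n1]
  rw [inner_prj] at hk hl
  rw [inner_prj, inner_prj, inner_prj]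
  generalize (inner ℝ (p (ej m) - p (ei m)) (p (ej m) - p (ei m)) : ℝ) = A at *
  generalize (A * inner ℝ (p (ek m) - p (ei m)) (p (el m) - p (ei m))
    - inner ℝ (p (ej m) - p (ei m)) (p (ek m) - p (ei m)) *
      inner ℝ (p (ej m) - p (ei m)) (p (el m) - p (ei m)) : ℝ) = N at *
  generalize (A * inner ℝ (p (ek m) - p (ei m)) (p (ek m) - p (ei m))
    - inner ℝ (p (ej m) - p (ei m)) (p (ek m) - p (ei m)) *
      inner ℝ (p (ej m) - p (ei m)) (p (ek m) - p (ei m)) : ℝ) = K at *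
  generalize (A * inner ℝ (p (el m) - p (ei m)) (p (el m) - p (ei m))
    - inner ℝ (p (ej m) - p (ei m)) (p (el m) - p (ei m)) *
      inner ℝ (p (ej m) - p (ei m)) (p (el m) - p (ei m)) : ℝ) = L at *
  have hK : 0 < K := (mul_pos_iff_of_pos_left ha).1 hk
  have hL : 0 < L := (mul_pos_iff_of_pos_left ha).1 hl
  have e1 : 4 * K * (4 * L) = 4 ^ 2 * (K * L) := by ring
  have e2 : A * K * (A * L) = A ^ 2 * (K * L) := by ring
  rw [e1, e2, Real.sqrt_mul (by norm_num : (0 : ℝ) ≤ 4 ^ 2) (K * L),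
    Real.sqrt_mul (by positivity : (0 : ℝ) ≤ A ^ 2) (K * L),
    Real.sqrt_sq (by norm_num : (0 : ℝ) ≤ 4), Real.sqrt_sq ha.le]
  have h7 : √(K * L) ≠ 0 := (Real.sqrt_pos.2 (by positivity)).ne'
  field_simp

/-- replacing a vertex by the barycentre -/
theorem upd_indep {p : Fin 4 → E3} (hp : AffineIndependent ℝ p) (a : Fin 4) :
    AffineIndependent ℝ (Function.update p a ((1 / 4 : ℝ) • (p 0 + p 1 + p 2 + p 3))) := by
  rw [affineIndependent_iff_of_fintype]
  intro w h0 h
  rw [Finset.weightedVSub_eq_linear_combination _ h0] at h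
  have h1 := wts hp (fun c => (if c = a then 0 else w c) + w a / 4) (by
    rw [Fin.sum_univ_four] at h0 ⊢
    fin_cases a <;> simp <;> linarith) (by
    rw [Fin.sum_univ_four] at h ⊢
    rw [← h]
    fin_cases a <;> simp [Function.update] <;> module)
  have h2 := h1 a
  simp only [if_true, zero_add] at h2
  have h3 : w a = 0 := by linarith
  intro c
  by_cases hc : c = a
  · rw [hc]
    exact h3
  · have := h1 c
    simp only [if_neg hc, h3] at this
    linarith

end Pool.Agent.H93FL
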