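import Mathlib
import Pool.Agent.H93FL.Geo
import Pool.Agent.H4ES.Regge
import Pool.Agent.H4ES.Cone
import Pool.Agent.H4ES.Final

set_option autoImplicit false

/-!
Coning every 3-simplex of a 3-dimensional complex from its barycentre does not change the
curvatures of the old edges, and the new edges have curvature zero.
-/

namespace Pool.Agent.H93FL

open Real InnerProductGeometry Pool.Agent.H4ES Pool.Agent.H23ES

variable {V ι : Type} [DecidableEq V] [Fintype ι] [DecidableEq ι]

/-- the barycentre -/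
noncomputable def bar (p : Fin 4 → E3) : E3 := (1 / 4 : ℝ) • (p 0 + p 1 + p 2 + p 3)

/-- squared length of the new edge from the barycentre of `T` to `x` -/
noncomputable def nl (K : Cplx V ι) (p : ι → Fin 4 → E3) (T : ι) (x : V) : ℝ :=
  ∑ b, if K.v T b = x then Dist.dist (bar (p T)) (p T b) ^ 2 else 0

theorem nl_v (K : Cplx V ι) (p : ι → Fin 4 → E3) (T : ι) (b : Fin 4) :
    nl K p T (K.v T b) = Dist.dist (bar (p T)) (p T b) ^ 2 := by
  unfold nl
  rw [Finset.sum_eq_single b]
  · simp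
  · intro c _ hc
    rw [if_neg fun h => hc (K.inj T h)]
  · simp

/-- the metric on the coned complex -/
noncomputable def zb (K : Cplx V ι) (z : Sym2 V → ℝ) (p : ι → Fin 4 → E3) :
    Sym2 (V ⊕ ι) → ℝ :=
  Sym2.lift ⟨fun x y => match x, y with
    | Sum.inl a, Sum.inl b => z s(a, b)
    | Sum.inr T, Sum.inl b => nl K p T b
    | Sum.inl a, Sum.inr T => nl K p T a
    | Sum.inr _, Sum.inr _ => 1, by
      rintro (a | T) (b | T')
      · dsimp only
        rw [Sym2.eq_swap]
      · rfl
      · rfl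
      · rfl⟩

theorem zb_old (K : Cplx V ι) (z : Sym2 V → ℝ) (p : ι → Fin 4 → E3) (a b : V) :
    zb K z p s(Sum.inl a, Sum.inl b) = z s(a, b) := rfl

theorem zb_map (K : Cplx V ι) (z : Sym2 V → ℝ) (p : ι → Fin 4 → E3) (e : Sym2 V) :
    zb K z p (e.map Sum.inl) = z e := by
  induction e with
  | _ x y => rfl

theorem zb_new (K : Cplx V ι) (z : Sym2 V → ℝ) (p : ι → Fin 4 → E3) (T : ι) (b : V) :
    zb K z p s(Sum.inr T, Sum.inl b) = nl K p T b := rfl

theorem zb_new' (K : Cplx V ι) (z : Sym2 V → ℝ) (p : ι → Fin 4 → E3) (T : ι) (b : V) :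
    zb K z p s(Sum.inl b, Sum.inr T) = nl K p T b := rfl

/-- the realisation of the simplex `(T, a)` of the coned complex -/
noncomputable def pc (p : ι → Fin 4 → E3) (T : ι) (a : Fin 4) : Fin 4 → E3 :=
  Function.update (p T) a (bar (p T))

section

variable (K : Cplx V ι) (z : Sym2 V → ℝ) (p : ι → Fin 4 → E3)
  (hp : ∀ T, AffineIndependent ℝ (p T))
  (hq : ∀ T b c, b ≠ c → Dist.dist (p T b) (p T c) ^ 2 = K.sq z T b c)

include hq in
theorem pc_sq (T : ι) (a b c : Fin 4) (hbc : b ≠ c) :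
    Dist.dist (pc p T a b) (pc p T a c) ^ 2 = K.cone.sq (zb K z p) (T, a) b c := by
  unfold pc Cplx.sq Cplx.cone
  dsimp only
  by_cases hb : b = a
  · subst hb
    rw [if_pos rfl, if_neg (Ne.symm hbc), Function.update_self,
      Function.update_of_ne (Ne.symm hbc), zb_new, nl_v]
  · by_cases hc : c = a
    · subst hc
      rw [if_pos rfl, if_neg hbc, Function.update_self,
        Function.update_of_ne hbc, zb_new', nl_v, dist_comm]
    · rw [if_neg hb, if_neg hc, Function.update_of_ne hb, Function.update_of_ne hc, zb_old]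
      exact hq T b c hbc

include hp in
theorem pc_indep (T : ι) (a : Fin 4) : AffineIndependent ℝ (pc p T a) := upd_indep (hp T) a

include hp hq in
theorem th_cone (T : ι) (a : Fin 4) (m : Fin 6) : th (K.cone.sq (zb K z p) (T, a)) m =
    dih (pc p T a (ei m)) (pc p T a (ej m)) (pc p T a (ek m)) (pc p T a (el m)) :=
  th_eq_dih (pc_indep p hp T a) (fun b c hbc => pc_sq K z p hq T a b c hbc) m

include hp hq in
theorem curv_old (e : Sym2 V) : K.cone.curv (zb K z p) (e.map Sum.inl) = K.curv z e := by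
  unfold Cplx.curv
  congr 1
  rw [Fintype.sum_prod_type]
  refine Finset.sum_congr rfl fun T _ => ?_
  rw [Finset.sum_comm]
  refine Finset.sum_congr rfl fun m _ => ?_
  have h1 : ∀ a : Fin 4, (if K.cone.ed (T, a) m = e.map Sum.inl then
      th (K.cone.sq (zb K z p) (T, a)) m / (2 * π) else 0) =
      if ¬(a = ei m ∨ a = ej m) ∧ K.ed T m = e then
        dih (pc p T a (ei m)) (pc p T a (ej m)) (pc p T a (ek m)) (pc p T a (el m)) / (2 * π)
      else 0 := by
    intro a
    by_cases h : ¬(a = ei m ∨ a = ej m) ∧ K.ed T m = e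
    · rw [if_pos h, if_pos ((K.ed_cone_old T a m e).2 h), th_cone K z p hp hq]
    · rw [if_neg h, if_neg (fun h' => h ((K.ed_cone_old T a m e).1 h'))]
  rw [Finset.sum_congr rfl fun a _ => h1 a]
  by_cases h : K.ed T m = e
  · simp only [h, and_true, if_true]
    rw [th_eq_dih (hp T) (hq T) m]
    have hne : ei m ≠ ej m ∧ ei m ≠ ek m ∧ ei m ≠ el m ∧ ej m ≠ ek m ∧ ej m ≠ el m ∧
        ek m ≠ el m := by
      fin_cases m <;> simp [ei, ej, ek, el]
    obtain ⟨n1, n2, n3, n4, n5, n6⟩ := hne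
    have hb : (1 / 4 : ℝ) • (p T (ei m) + p T (ej m) + p T (ek m) + p T (el m)) = bar (p T) := by
      unfold bar
      congr 1
      fin_cases m <;> simp [ei, ej, ek, el] <;> abel
    have h2 := bary2 (A := p T (ei m)) (B := p T (ej m)) (C := p T (ek m)) (D := p T (el m))
      (prj_pt (hp T) n1 n3 n5)
    rw [hb] at h2
    have e1 : dih (pc p T (ek m) (ei m)) (pc p T (ek m) (ej m)) (pc p T (ek m) (ek m))
        (pc p T (ek m) (el m)) = dih (p T (ei m)) (p T (ej m)) (bar (p T)) (p T (el m)) := by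
      unfold pc
      rw [Function.update_of_ne n2, Function.update_of_ne n4, Function.update_self,
        Function.update_of_ne n6.symm]
    have e2 : dih (pc p T (el m) (ei m)) (pc p T (el m) (ej m)) (pc p T (el m) (ek m))
        (pc p T (el m) (el m)) = dih (p T (ei m)) (p T (ej m)) (p T (ek m)) (bar (p T)) := by
      unfold pc
      rw [Function.update_of_ne n3, Function.update_of_ne n5, Function.update_self,
        Function.update_of_ne n6]
    rw [← h2, ← e1, ← e2]
    have hs : ∀ F : Fin 4 → ℝ, (∑ a, if ¬(a = ei m ∨ a = ej m) then F a else 0) =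
        F (el m) + F (ek m) := by
      intro F
      fin_cases m <;> simp [ei, ej, ek, el, Fin.sum_univ_succ] <;> ring
    rw [hs (fun a => dih (pc p T a (ei m)) (pc p T a (ej m)) (pc p T a (ek m))
      (pc p T a (el m)) / (2 * π))]
    ring
  · simp [h]

include hp hq in
theorem curv_new (T : ι) (b : Fin 4) :
    K.cone.curv (zb K z p) s(Sum.inr T, Sum.inl (K.v T b)) = 0 := by
  unfold Cplx.curv
  rw [sub_eq_zero]
  symm
  rw [Fintype.sum_prod_type, Finset.sum_eq_single T]
  · have h1 : ∀ (a : Fin 4) (m : Fin 6), (if K.cone.ed (T, a) m =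
        s(Sum.inr T, Sum.inl (K.v T b)) then
        th (K.cone.sq (zb K z p) (T, a)) m / (2 * π) else 0) =
        if ((a = ei m ∧ ej m = b) ∨ (a = ej m ∧ ei m = b)) then
          dih (pc p T a (ei m)) (pc p T a (ej m)) (pc p T a (ek m)) (pc p T a (el m)) / (2 * π)
        else 0 := by
      intro a m
      by_cases h : ((a = ei m ∧ ej m = b) ∨ (a = ej m ∧ ei m = b))
      · rw [if_pos h, if_pos ((K.ed_cone_new T T a b m).2 ⟨rfl, h⟩), th_cone K z p hp hq]
      · rw [if_neg h, if_neg (fun h' => h ((K.ed_cone_new T T a b m).1 h').2)]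
    rw [Finset.sum_congr rfl fun a _ => Finset.sum_congr rfl fun m _ => h1 a m]
    have key : ∀ b c d f : Fin 4, b ≠ c → b ≠ d → b ≠ f → c ≠ d → c ≠ f → d ≠ f →
        dih (bar (p T)) (p T b) (p T c) (p T d) + dih (bar (p T)) (p T b) (p T d) (p T f) +
        dih (bar (p T)) (p T b) (p T f) (p T c) = 2 * π := by
      intro b c d f h1 h2 h3 h4 h5 h6
      have hs : p T b + p T c + p T d + p T f = p T 0 + p T 1 + p T 2 + p T 3 := by
        have hall : ∀ b c d f : Fin 4, b ≠ c → b ≠ d → b ≠ f → c ≠ d → c ≠ f → d ≠ f →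
            ({b, c, d, f} : Finset (Fin 4)) = Finset.univ := by decide
        have h7 := hall b c d f h1 h2 h3 h4 h5 h6
        have h8 : ∑ x ∈ ({b, c, d, f} : Finset (Fin 4)), p T x = ∑ x, p T x := by rw [h7]
        rw [Finset.sum_insert (by simp [h1, h2, h3]), Finset.sum_insert (by simp [h4, h5]),
          Finset.sum_insert (by simp [h6]), Finset.sum_singleton, Fin.sum_univ_four] at h8
        rw [← h8]
        abel
      refine bary3 (P := bar (p T)) (B := p T b) (C := p T c) (D := p T d) (F := p T f) ?_ ?_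
      · rw [hs]
        unfold bar
        module
      · have := prj_pt (pc_indep p hp T f) (i := f) (j := b) (k := d) h3.symm h6.symm h2
        unfold pc at this
        rwa [Function.update_self, Function.update_of_ne h3, Function.update_of_ne h6] at this
    have hpi : (2 * π) ≠ 0 := by positivity
    fin_cases b
    · have k1 := key 0 1 2 3 (by decide) (by decide) (by decide) (by decide) (by decide)
        (by decide)
      rw [dih_comm _ _ (p T 3) (p T 1)] at k1
      simp only [ei, ej, ek, el, Fin.sum_univ_succ, pc]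
      simp
      rw [dih_swap (p T 0) (bar (p T)) (p T 2) (p T 3), dih_swap (p T 0) (bar (p T)) (p T 1) (p T 3),
        dih_swap (p T 0) (bar (p T)) (p T 1) (p T 2), ← add_div, ← add_div,
        div_eq_one_iff_eq hpi, ← k1]
      ring
    · have k1 := key 1 0 2 3 (by decide) (by decide) (by decide) (by decide) (by decide)
        (by decide)
      rw [dih_comm _ _ (p T 3) (p T 0)] at k1
      simp only [ei, ej, ek, el, Fin.sum_univ_succ, pc]
      simp
      rw [dih_swap (p T 1) (bar (p T)) (p T 0) (p T 3),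
        dih_swap (p T 1) (bar (p T)) (p T 0) (p T 2), ← add_div, ← add_div,
        div_eq_one_iff_eq hpi, ← k1]
      ring
    · have k1 := key 2 0 1 3 (by decide) (by decide) (by decide) (by decide) (by decide)
        (by decide)
      rw [dih_comm _ _ (p T 3) (p T 0)] at k1
      simp only [ei, ej, ek, el, Fin.sum_univ_succ, pc]
      simp
      rw [dih_swap (p T 2) (bar (p T)) (p T 0) (p T 1), ← add_div, ← add_div,
        div_eq_one_iff_eq hpi, ← k1]
      ring
    · have k1 := key 3 0 1 2 (by decide) (by decide) (by decide) (by decide) (by decide)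
        (by decide)
      rw [dih_comm _ _ (p T 2) (p T 0)] at k1
      simp only [ei, ej, ek, el, Fin.sum_univ_succ, pc]
      simp
      rw [← add_div, ← add_div, div_eq_one_iff_eq hpi, ← k1]
      ring
  · intro T' _ hne
    refine Finset.sum_eq_zero fun a _ => Finset.sum_eq_zero fun m _ => ?_
    rw [if_neg]
    intro h
    exact hne ((K.ed_cone_new T T' a b m).1 h).1
  · simp

end

/-- Regge's formula for the gradient, for every metric -/
theorem regge (K : Cplx V ι) (z : Sym2 V → ℝ) (hK : K.IsMetric z) {e : Sym2 V}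
    (he : e ∈ K.edges) :
    0 < z e ∧ HasDerivAt (fun x => K.totalCurv (Function.update z e x))
      (K.curv z e / (2 * √(z e))) (z e) := by
  choose p hp hq using hK
  have hz : 0 < z e := by
    obtain ⟨⟨T, m⟩, _, rfl⟩ := Finset.mem_image.1 he
    exact q_pos (hp T) (hq T) (ei_ne_ej m)
  exact ⟨hz, K.hasDeriv_total z e he hz fun T => K.tet_deriv z e T
    (fun a b hab => q_pos (hp T) (hq T) hab)
    (fun i j k h1 h2 h3 => ar_pos (hp T) (hq T) h1 h2 h3) (gr_pos (hp T) (hq T))⟩

/-- the coned complex with the barycentric metric -/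
theorem cone_metric (K : Cplx V ι) (z : Sym2 V → ℝ) (hK : K.IsMetric z) :
    ∃ z' : Sym2 (V ⊕ ι) → ℝ, (∀ e : Sym2 V, z' (e.map Sum.inl) = z e) ∧
      (∀ T, ∃ p : Fin 4 → E3, AffineIndependent ℝ p ∧
        (∀ a b, a ≠ b → Dist.dist (p a) (p b) ^ 2 = K.sq z T a b) ∧
        ∀ b, z' s(Sum.inr T, Sum.inl (K.v T b)) = Dist.dist (bar p) (p b) ^ 2) ∧
      K.cone.IsMetric z' ∧
      (∀ e : Sym2 V, K.cone.curv z' (e.map Sum.inl) = K.curv z e) ∧
      (∀ (T : ι) (b : Fin 4), K.cone.curv z' s(Sum.inr T, Sum.inl (K.v T b)) = 0) := by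
  choose p hp hq using hK
  exact ⟨zb K z p, zb_map K z p, fun T => ⟨p T, hp T, hq T, fun b => nl_v K p T b⟩,
    fun ⟨T, a⟩ => ⟨pc p T a, pc_indep p hp T a, fun b c hbc => pc_sq K z p hq T a b c hbc⟩,
    curv_old K z p hp hq, curv_new K z p hp hq⟩

/-- `Ein(z) = 0`: all partial derivatives of the total scalar curvature vanish at `z`. -/
def ZeroEin (K : Cplx V ι) (z : Sym2 V → ℝ) : Prop :=
  ∀ e ∈ K.edges, HasDerivAt (fun x => K.totalCurv (Function.update z e x)) 0 (z e)

omit [DecidableEq ι] in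
/-- `Ein(z) = 0` if and only if all curvatures vanish -/
theorem zeroEin_iff [DecidableEq ι] (K : Cplx V ι) (z : Sym2 V → ℝ) (hK : K.IsMetric z) :
    ZeroEin K z ↔ ∀ e ∈ K.edges, K.curv z e = 0 := by
  constructor
  · intro h e he
    obtain ⟨hz, h6⟩ := regge K z hK he
    have h7 := h6.unique (h e he)
    have h9 : 2 * √(z e) ≠ 0 := by
      have := Real.sqrt_pos.2 hz
      positivity
    exact (div_eq_zero_iff.1 h7).resolve_right h9
  · intro h e he
    obtain ⟨_, h6⟩ := regge K z hK he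
    rw [h e he, zero_div] at h6
    exact h6

theorem old_mem (K : Cplx V ι) {e : Sym2 V} (he : e ∈ K.edges) :
    e.map Sum.inl ∈ K.cone.edges := by
  obtain ⟨⟨T, m⟩, _, rfl⟩ := Finset.mem_image.1 he
  refine Finset.mem_image.2 ⟨((T, ek m), m), Finset.mem_univ _, ?_⟩
  refine (K.ed_cone_old T (ek m) m _).2 ⟨?_, rfl⟩
  fin_cases m <;> simp [ei, ej, ek]

theorem new_mem (K : Cplx V ι) (T : ι) (b : Fin 4) :
    s(Sum.inr T, Sum.inl (K.v T b)) ∈ K.cone.edges := by
  have : ∃ (a : Fin 4) (m : Fin 6), (a = ei m ∧ ej m = b) ∨ (a = ej m ∧ ei m = b) := by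
    revert b
    decide
  obtain ⟨a, m, h⟩ := this
  exact Finset.mem_image.2 ⟨((T, a), m), Finset.mem_univ _, (K.ed_cone_new T T a b m).2 ⟨rfl, h⟩⟩

/-- Ricci-flat complexes -/
theorem flat_cone (K : Cplx V ι) (z : Sym2 V → ℝ) (hK : K.IsMetric z) :
    ∃ z' : Sym2 (V ⊕ ι) → ℝ, (∀ e : Sym2 V, z' (e.map Sum.inl) = z e) ∧
      (∀ T, ∃ p : Fin 4 → E3, AffineIndependent ℝ p ∧
        (∀ a b, a ≠ b → Dist.dist (p a) (p b) ^ 2 = K.sq z T a b) ∧
        ∀ b, z' s(Sum.inr T, Sum.inl (K.v T b)) = Dist.dist (bar p) (p b) ^ 2) ∧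
      K.cone.IsMetric z' ∧
      (∀ e : Sym2 V, K.cone.curv z' (e.map Sum.inl) = K.curv z e) ∧
      (∀ (T : ι) (b : Fin 4), K.cone.curv z' s(Sum.inr T, Sum.inl (K.v T b)) = 0) ∧
      (ZeroEin K.cone z' ↔ ZeroEin K z) ∧ (K.cone.IsEinstein z' ↔ ZeroEin K z) := by
  obtain ⟨z', h1, h0, h2, h3, h4⟩ := cone_metric K z hK
  have hA : ZeroEin K z → ZeroEin K.cone z' := by
    intro h
    rw [zeroEin_iff K.cone z' h2]
    rw [zeroEin_iff K z hK] at h
    intro e' he'
    rcases K.edges_cone e' he' with ⟨e, he, rfl⟩ | ⟨T, b, rfl⟩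
    · rw [h3, h e he]
    · exact h4 T b
  have hB : ZeroEin K.cone z' → K.cone.IsEinstein z' := by
    intro h
    refine ⟨h2, 0, fun e he => ?_⟩
    rw [zero_mul]
    exact h e he
  have hC : K.cone.IsEinstein z' → ZeroEin K z := by
    rintro ⟨_, c, hc⟩
    rw [zeroEin_iff K z hK]
    intro e he
    have hT : ∃ T : ι, True := by
      obtain ⟨⟨T, m⟩, _, _⟩ := Finset.mem_image.1 he
      exact ⟨T, trivial⟩
    obtain ⟨T, -⟩ := hT
    obtain ⟨hz, h6⟩ := regge K.cone z' h2 (new_mem K T 0)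
    rw [h4, zero_div] at h6
    have h7 := h6.unique (hc _ (new_mem K T 0))
    have hc0 : c = 0 := (mul_eq_zero.1 h7.symm).resolve_right hz.ne'
    obtain ⟨hz', h8⟩ := regge K.cone z' h2 (old_mem K he)
    have h9 := h8.unique (hc _ (old_mem K he))
    rw [hc0, zero_mul] at h9
    have h10 : 2 * √(z' (e.map Sum.inl)) ≠ 0 := by
      have := Real.sqrt_pos.2 hz'
      positivity
    have h11 := (div_eq_zero_iff.1 h9).resolve_right h10
    rw [← h3, h11]
  exact ⟨z', h1, h0, h2, h3, h4, ⟨fun h => hC (hB h), hA⟩, ⟨hC, fun h => hB (hA h)⟩⟩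

end Pool.Agent.H93FL
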